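import Pool.Agent.Lib.H15P.FIN2

/-!
# H92P, X0: the variation of functions which equal `1` on void windows
-/

open Finset

namespace Pool.Agent.Lib.H92P

open Pool.Agent.Lib.H15P

/-- Let `g : ℕ → [0, 1]` be `1` wherever the window `(n, n + H]`, `H = ⌊lam log x⌋`, contains no
prime, with mean value at most `1 - c0`. Then the variation of `g` is at least `c x/log x`. -/
theorem core_variation (lam c0 : ℝ) (hl : 0 < lam) (hc0 : 0 < c0) (hc01 : c0 ≤ 1) :
    ∃ c : ℝ, 0 < c ∧ ∃ x0 : ℝ, ∀ x : ℝ, x0 ≤ x → ∃ N0 N1 U : ℕ,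
      x ^ (1 / 2 : ℝ) ≤ N0 ∧ (N0 : ℝ) ≤ 2 * x ^ (1 / 2 : ℝ) ∧ x - x ^ (1 / 2 : ℝ) ≤ N1 ∧
      ((N1 + ⌊lam * Real.log x⌋₊ + U : ℕ) : ℝ) ≤ x ∧
      ∀ g : ℕ → ℝ, (∀ n, 0 ≤ g n) → (∀ n, g n ≤ 1) →
        (∀ n, 1 ≤ n → (∀ h ∈ Icc 1 ⌊lam * Real.log x⌋₊, ¬ (n + h).Prime) → g n = 1) →
        ∑ n ∈ Ico N0 N1, g n ≤ (1 - c0) * ((N1 : ℝ) - N0) →
        c * (x / Real.log x) ≤
          ∑ n ∈ Ico N0 (N1 + ⌊lam * Real.log x⌋₊ + U), |g (n + 1) - g n| := by
  have hc0sq : c0 ^ 2 ≤ 1 := by nlinarith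
  have hc0c : c0 ^ 2 ≤ c0 := by nlinarith
  obtain ⟨C, x0, hset⟩ := exists_setup lam (4000 * lam / c0 ^ 2) (1 / 4) (c0 ^ 2 / 1000) hl
    (by positivity) (by norm_num) (by positivity) (by linarith)
  have hCpos : 0 < C := by
    obtain ⟨w, y, Y0, Y, hw, -⟩ := hset x0 le_rfl
    rw [← hw]
    exact lt_of_lt_of_le (Real.exp_pos _) w.hC
  set a : ℝ := 2000 * C / c0 ^ 2 with ha
  have hapos : 0 < a := by positivity
  set A : ℝ := lam + (2 * lam + 1) * a + 1 with hA
  have hApos : 0 < A := by positivity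
  -- large x
  have E1 : ∀ᶠ x : ℝ in Filter.atTop, max (1 / lam) (max (2 * A) 1) ≤ Real.log x :=
    Real.tendsto_log_atTop.eventually_ge_atTop _
  have E2 : ∀ᶠ x : ℝ in Filter.atTop, A * Real.log x ≤ x ^ (1 / 4 : ℝ) := by
    have := (isLittleO_log_rpow_atTop (r := 1 / 4) (by norm_num)).bound (c := 1 / A)
      (by positivity)
    filter_upwards [this, Filter.eventually_ge_atTop 1] with x hx hx1
    rw [Real.norm_of_nonneg (Real.log_nonneg hx1),
      Real.norm_of_nonneg (by positivity)] at hx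
    calc A * Real.log x ≤ A * (1 / A * x ^ (1 / 4 : ℝ)) := by gcongr
      _ = x ^ (1 / 4 : ℝ) := by field_simp
  have E3 : ∀ᶠ x : ℝ in Filter.atTop, 400 * C * A * Real.log x ≤ c0 ^ 2 * x := by
    have := (isLittleO_log_rpow_atTop (r := 1) (by norm_num)).bound
      (c := c0 ^ 2 / (400 * C * A)) (by positivity)
    filter_upwards [this, Filter.eventually_ge_atTop 1] with x hx hx1
    rw [Real.norm_of_nonneg (Real.log_nonneg hx1), Real.rpow_one,
      Real.norm_of_nonneg (by linarith)] at hx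
    calc 400 * C * A * Real.log x ≤ 400 * C * A * (c0 ^ 2 / (400 * C * A) * x) := by gcongr
      _ = c0 ^ 2 * x := by field_simp
  have E4 : ∀ᶠ x : ℝ in Filter.atTop, Real.log x < x ^ (1 / 2 : ℝ) := by
    have := (isLittleO_log_rpow_atTop (r := 1 / 2) (by norm_num)).bound (c := 1 / 2)
      (by norm_num)
    filter_upwards [this, Filter.eventually_ge_atTop 1] with x hx hx1
    rw [Real.norm_of_nonneg (Real.log_nonneg hx1),
      Real.norm_of_nonneg (by positivity)] at hx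
    have : 0 < x ^ (1 / 2 : ℝ) := by positivity
    linarith
  obtain ⟨x1, hx1⟩ := Filter.eventually_atTop.mp (E1.and (E2.and (E3.and E4)))
  refine ⟨c0 ^ 2 / (20 * C * A), by positivity, max (max x0 x1) 100, fun x hx => ?_⟩
  have hxx0 : x0 ≤ x := ((le_max_left _ _).trans (le_max_left _ _)).trans hx
  have hxx1 : x1 ≤ x := ((le_max_right _ _).trans (le_max_left _ _)).trans hx
  have hx100 : (100 : ℝ) ≤ x := (le_max_right _ _).trans hx
  obtain ⟨h1, h2, h3, h4⟩ := hx1 x hxx1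
  have hL1 : 1 / lam ≤ Real.log x := (le_max_left _ _).trans h1
  have hL2 : 2 * A ≤ Real.log x := ((le_max_left _ _).trans (le_max_right _ _)).trans h1
  have hL3 : 1 ≤ Real.log x := ((le_max_right _ _).trans (le_max_right _ _)).trans h1
  obtain ⟨w, y, Y0, Y, hwC, hwe, hwW, hS, hP, hy, hN0a, hN0b, hN1a, hN1b⟩ := hset x hxx0
  set L := Real.log x with hLdef
  set H := ⌊lam * L⌋₊ with hHdef
  set M := primorial y with hMdef
  set N0 := M * Y0 with hN0
  set N1 := M * (Y0 + Y) with hN1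
  have hLpos : 0 < L := by linarith
  have hHle : (H : ℝ) ≤ lam * L := Nat.floor_le (by positivity)
  have hH1 : 1 ≤ H := by
    apply Nat.le_floor
    rw [Nat.cast_one]
    calc (1 : ℝ) = lam * (1 / lam) := by field_simp
      _ ≤ lam * L := by gcongr
  set U := ⌈(2 * (H : ℝ) + 1) * a⌉₊ with hU
  have hU1 : 1 ≤ U := Nat.one_le_iff_ne_zero.mpr (Nat.pos_iff_ne_zero.mp
    (Nat.ceil_pos.mpr (by positivity)))
  have hUge : (2 * (H : ℝ) + 1) * a ≤ U := Nat.le_ceil _
  have hUle : (U : ℝ) ≤ (2 * (H : ℝ) + 1) * a + 1 := (Nat.ceil_lt_add_one (by positivity)).le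
  have hHU : (H : ℝ) + U ≤ A * L := by
    calc (H : ℝ) + U ≤ lam * L + ((2 * (lam * L) + 1) * a + 1) := by
          have : (2 * (H : ℝ) + 1) * a ≤ (2 * (lam * L) + 1) * a := by gcongr
          linarith
      _ ≤ lam * L + ((2 * (lam * L) + L) * a + L) := by
          have : (2 * (lam * L) + 1) * a ≤ (2 * (lam * L) + L) * a := by gcongr
          linarith
      _ = A * L := by rw [hA]; ring
  have hW2 : 2 * (H + U) ≤ w.W := by
    rw [hwW]
    have e1 : (2 : ℝ) * (H + U) ≤ L ^ 4 := by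
      calc (2 : ℝ) * (H + U) ≤ 2 * (A * L) := by gcongr
        _ = (2 * A) * L := by ring
        _ ≤ L * L := by gcongr
        _ ≤ L * L * (L * L) := fin2_four L hL3
        _ = L ^ 4 := by ring
    have e2 : L ^ 4 ≤ (⌈L ^ 4⌉₊ : ℕ) := Nat.le_ceil _
    have e3 : ((2 * (H + U) : ℕ) : ℝ) ≤ (⌈L ^ 4⌉₊ : ℕ) := by
      push_cast
      linarith
    exact_mod_cast e3
  have hbad : 4 * lam / (4000 * lam / c0 ^ 2) = c0 ^ 2 / 1000 := by
    field_simp
    norm_num
  rw [hbad] at hS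
  set MY : ℝ := (M : ℝ) * Y with hMY
  have hN1N0 : (N1 : ℝ) - N0 = MY := by
    rw [hN1, hN0, hMY]
    push_cast
    ring
  obtain ⟨hxs, hxs10⟩ := fin2_sqrt x hx100
  have hxs14 : x ^ (1 / 4 : ℝ) ≤ x ^ (1 / 2 : ℝ) :=
    Real.rpow_le_rpow_of_exponent_le (by linarith) (by norm_num)
  have hx14pos : 0 < x ^ (1 / 4 : ℝ) := by positivity
  have hMYge : x / 2 ≤ MY := by linarith
  have hMYle : MY ≤ x := by
    have : (0 : ℝ) ≤ N0 := Nat.cast_nonneg _
    linarith
  have hMYpos : 0 < MY := by linarith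
  have h01 : N0 + H + U ≤ N1 := by
    have : (N0 : ℝ) + H + U ≤ N1 := by linarith
    exact_mod_cast this
  have hN0x : x ^ (1 / 2 : ℝ) ≤ N0 := hN0a
  have hN02 : 2 ≤ N0 := by
    have : (2 : ℝ) ≤ N0 := by linarith
    exact_mod_cast this
  have hX : ((N1 + H + U : ℕ) : ℝ) ≤ x := by
    push_cast
    linarith
  refine ⟨N0, N1, U, hN0a, hN0b, hN1a, hX, ?_⟩
  intro g hg0 hg1 hgv hgm
  set K : ℝ := ∑ n ∈ Ico N0 (N1 + H + U), |g (n + 1) - g n| with hK
  have hKnn : 0 ≤ K := sum_nonneg fun _ _ => abs_nonneg _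
  -- the decorrelation inequality
  have hdec := decorrelate N0 N1 H U hU1 h01 (w.wt H M) g (2 * C) c0 (8 * c0 ^ 2 / 1000)
    (3 * c0 ^ 2 / 1000) K (fun n => fin2_wt_nonneg w H M n) hg0
    hg1 (by positivity) (by positivity) (by positivity) hKnn
    (by
      rw [hN1N0]
      have e1 := w.sum_wt_ge H y Y0 Y (c0 ^ 2 / 1000) hS 0 (by omega)
      have e2 := w.sum_wt_rg_le H y Y0 Y (c0 ^ 2 / 1000) hS (by omega)
      simp only [add_zero] at e1
      rw [hwe] at e1 e2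
      have e3 : ∑ n ∈ Ico N0 N1, w.wt H M n ≤ ∑ n ∈ Ico N0 N1, w.wt H M n * g n +
          ∑ n ∈ Ico N0 N1, w.wt H M n * w.rg H M n := by
        rw [← Finset.sum_add_distrib]
        apply Finset.sum_le_sum
        intro n hn
        rw [mem_Ico] at hn
        have f1 := fin2_wt_nonneg w H M n
        by_cases hv : ∀ h ∈ Icc 1 H, ¬ (n + h).Prime
        · have f2 : g n = 1 := hgv n (by omega) hv
          rw [f2, mul_one]
          have f3 : (0 : ℝ) ≤ w.rg H M n := Nat.cast_nonneg _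
          exact le_add_of_nonneg_right (mul_nonneg f1 f3)
        · have f4 : 1 ≤ w.rg H M n := by
            apply fin2_rg w H y n _ _ hv
            · have g1 : (y : ℝ) < n := by
                have g2 : (N0 : ℝ) ≤ n := by exact_mod_cast hn.1
                linarith
              exact_mod_cast g1
            · intro p hp
              have g1 := hP p hp
              have g0 : x ^ (1 / 4 : ℝ) < x ^ (1 / 2 : ℝ) :=
                Real.rpow_lt_rpow_of_exponent_lt (by linarith) (by norm_num)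
              have g2 : (N0 : ℝ) ≤ n := by exact_mod_cast hn.1
              have g3 : (p : ℝ) < n := by linarith
              exact_mod_cast g3
          have f5 : (1 : ℝ) ≤ w.rg H M n := by exact_mod_cast f4
          have f6 : 0 ≤ w.wt H M n * g n := mul_nonneg f1 (hg0 n)
          have f7 := le_mul_of_one_le_right f1 f5
          linarith
      have e4 : (1 - c0 ^ 2 / 1000 - 4 * (c0 ^ 2 / 1000)) * MY ≤ ∑ n ∈ Ico N0 N1, w.wt H M n := e1
      have e5 : ∑ n ∈ Ico N0 N1, w.wt H M n * w.rg H M n ≤ 3 * (c0 ^ 2 / 1000) * MY := e2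
      linarith only [e3, e4, e5])
    hgm
    (fun s hs => by
      rw [hN1N0]
      have e1 := w.sum_wt_sq_le H y Y0 Y (c0 ^ 2 / 1000) hS s (by omega)
      rw [hwC] at e1
      exact e1)
    (fun s s' hss hs' => by
      rw [hN1N0]
      have e1 := w.sum_wt_wt_le H y Y0 Y (c0 ^ 2 / 1000) hS s s' (by omega) (by omega)
      rw [hwe] at e1
      calc _ ≤ _ := e1
        _ = (1 + 3 * c0 ^ 2 / 1000) * MY := by ring)
    (fun s hs => by
      rw [hN1N0]
      have e1 := w.sum_wt_ge H y Y0 Y (c0 ^ 2 / 1000) hS s (by omega)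
      rw [hwe] at e1
      refine le_trans ?_ e1
      have e2 := mul_nonneg (sq_nonneg c0) hMYpos.le
      show (1 - 8 * c0 ^ 2 / 1000) * MY ≤ (1 - c0 ^ 2 / 1000 - 4 * (c0 ^ 2 / 1000)) * MY
      linarith only [e2])
    le_rfl
  rw [hN1N0] at hdec
  -- the square root
  have hsqrt : Real.sqrt (3 * c0 ^ 2 / 1000 + 2 * (8 * c0 ^ 2 / 1000) +
      (2 * (H : ℝ) + 1) * (2 * C) / U) ≤ c0 / 7 := by
    rw [Real.sqrt_le_left (by positivity)]
    have hUpos : (0 : ℝ) < U := by exact_mod_cast hU1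
    have e1 : (2 * (H : ℝ) + 1) * (2 * C) / U ≤ c0 ^ 2 / 1000 := by
      rw [div_le_iff₀ hUpos]
      calc (2 * (H : ℝ) + 1) * (2 * C) = c0 ^ 2 / 1000 * ((2 * (H : ℝ) + 1) * a) := by
            rw [ha]
            field_simp
            ring
        _ ≤ c0 ^ 2 / 1000 * U := by gcongr
    have e2 : 0 < c0 ^ 2 := by positivity
    have e3 : (c0 / 7) ^ 2 = c0 ^ 2 / 49 := by ring
    rw [e3]
    linarith only [e1, e2]
  have hHUpos : (0 : ℝ) < (H : ℝ) + U := by positivity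
  have hfin := fin2_final c0 C MY ((H : ℝ) + U) K hc0 hCpos hMYpos hHUpos hKnn
    (by
      calc 200 * C * ((H : ℝ) + U) ≤ 200 * C * (A * L) := by gcongr
        _ = 400 * C * A * L / 2 := by ring
        _ ≤ c0 ^ 2 * x / 2 := by gcongr
        _ = c0 ^ 2 * (x / 2) := by ring
        _ ≤ c0 ^ 2 * MY := by gcongr)
    (by
      refine le_trans ?_ hdec
      have e1 : 4 / 5 * c0 ≤ c0 - 8 * c0 ^ 2 / 1000 - c0 / 7 := by linarith only [hc0c, hc0]
      have e2 : 4 / 5 * c0 ≤ c0 - 8 * c0 ^ 2 / 1000 - Real.sqrt (3 * c0 ^ 2 / 1000 +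
          2 * (8 * c0 ^ 2 / 1000) + (2 * (H : ℝ) + 1) * (2 * C) / U) := by linarith
      exact mul_le_mul_of_nonneg_right e2 hMYpos.le)
  -- numerics
  have e1 : 49 / 200 * c0 ^ 2 * (x / 2) ≤ C * (A * L) * K := by
    calc 49 / 200 * c0 ^ 2 * (x / 2) ≤ 49 / 200 * c0 ^ 2 * MY := by gcongr
      _ ≤ C * ((H : ℝ) + U) * K := hfin
      _ ≤ C * (A * L) * K := by gcongr
  have e2 : c0 ^ 2 / (20 * C * A) * (x / L) = c0 ^ 2 * x / (20 * C * A * L) := by
    field_simp
  rw [e2, div_le_iff₀ (by positivity)]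
  have e3 : 0 ≤ c0 ^ 2 * x := by positivity
  linarith only [e1, e3]

end Pool.Agent.Lib.H92P
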