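import Pool.Agent.Lib.Helper57.PairCount

/-!
# H92P, X2: short gaps between primes are rare
-/

open Finset

namespace Pool.Agent.Lib.H92P

open Pool.Agent.Lib.Helper57

/-- The number of primes below `N` which have another prime at distance at most `G` below them. -/
theorem short_gaps (G0 N : ℕ) (hN : 7000 ≤ Real.log N) :
    (((range N).filter (fun q => q.Prime ∧ ∃ d ∈ Icc 1 G0, d ≤ q ∧ (q - d).Prime)).card : ℝ) ≤
      15 * 10 ^ 11 * (G0 * (N / (Real.log N) ^ 2)) := by
  classical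
  have h1 : (range N).filter (fun q => q.Prime ∧ ∃ d ∈ Icc 1 G0, d ≤ q ∧ (q - d).Prime) ⊆
      (Icc 1 G0).biUnion (fun d => ((range N).filter (fun a => (0 + a).Prime ∧
        (0 + d + a).Prime)).image (fun a => a + d)) := by
    intro q hq
    rw [mem_filter, mem_range] at hq
    obtain ⟨hq1, hq2, d, hd, hdq, hp⟩ := hq
    rw [mem_biUnion]
    refine ⟨d, hd, ?_⟩
    rw [mem_image]
    refine ⟨q - d, ?_, by omega⟩
    rw [mem_filter, mem_range]
    refine ⟨by omega, ?_, ?_⟩
    · rw [zero_add]; exact hp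
    · rw [show 0 + d + (q - d) = q by omega]; exact hq2
  have h2 : (((range N).filter (fun q => q.Prime ∧
      ∃ d ∈ Icc 1 G0, d ≤ q ∧ (q - d).Prime)).card : ℝ) ≤
      ∑ d ∈ Icc 1 G0, (10 : ℝ) ^ 9 * (G d * (N / (Real.log N) ^ 2)) := by
    calc (((range N).filter (fun q => q.Prime ∧
      ∃ d ∈ Icc 1 G0, d ≤ q ∧ (q - d).Prime)).card : ℝ) ≤
        ((∑ d ∈ Icc 1 G0, ((range N).filter (fun a => (0 + a).Prime ∧
        (0 + d + a).Prime)).card : ℕ) : ℝ) := by
          have := (card_le_card h1).trans card_biUnion_le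
          refine (Nat.cast_le.mpr (this.trans (sum_le_sum fun d _ => card_image_le)))
      _ = ∑ d ∈ Icc 1 G0, (((range N).filter (fun a => (0 + a).Prime ∧
        (0 + d + a).Prime)).card : ℝ) := by push_cast; rfl
      _ ≤ _ := by
        apply sum_le_sum
        intro d hd
        rw [mem_Icc] at hd
        have := cnt_pair_le 0 d N hd.1 hN
        rw [cnt_eq] at this
        exact this
  refine h2.trans ?_
  rw [← mul_sum, ← sum_mul]
  have hm := moment_le 1 G0 le_rfl
  have hm' : ∑ d ∈ Icc 1 G0, G d ≤ 1500 * G0 := by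
    have h1 : ∑ d ∈ Icc 1 G0, G d ^ 1 = ∑ d ∈ Icc 1 G0, G d := by simp
    rw [h1] at hm
    refine hm.trans ?_
    have h2 : Real.log ((2 * 1 : ℕ) : ℝ) ≤ 1 := by
      push_cast
      have := Real.log_two_lt_d9
      norm_num
      linarith
    have h3 : (0 : ℝ) ≤ G0 := Nat.cast_nonneg _
    rw [pow_one]
    nlinarith
  have h5 : (0 : ℝ) ≤ N / (Real.log N) ^ 2 := by positivity
  calc (10 : ℝ) ^ 9 * ((∑ i ∈ Icc 1 G0, G i) * (N / (Real.log N) ^ 2)) ≤
      10 ^ 9 * ((1500 * G0) * (N / (Real.log N) ^ 2)) := by gcongr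
    _ = _ := by ring

end Pool.Agent.Lib.H92P
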