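import Mathlib

/-!
# H92P, X1: crossings of the counting function of a sliding window

`cw H n` = number of primes in `(n, n + H]`. `hb H m n` remembers whether the last value of `cw`
different from `m` was smaller than `m`. Its number of switches is controlled by the number of `n`
with `cw H n = m` and by the number of short gaps between primes.
-/

open Finset

namespace Pool.Agent.Lib.H92P

/-- Number of primes in `(n, n + H]`. -/
def cw (H n : ℕ) : ℕ := ((Icc 1 H).filter (fun h => (n + h).Prime)).card

/-- `true` if the last value `≠ m` of `cw H` up to `n` was `< m`. -/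
def hb (H m : ℕ) : ℕ → Bool
  | 0 => true
  | n + 1 => if cw H (n + 1) < m then true else if m < cw H (n + 1) then false else hb H m n

/-- The indicator of `hb`. -/
noncomputable def hg (H m n : ℕ) : ℝ := if hb H m n = true then 1 else 0

theorem hg_nonneg (H m n : ℕ) : 0 ≤ hg H m n := by
  unfold hg; split_ifs <;> norm_num

theorem hg_le_one (H m n : ℕ) : hg H m n ≤ 1 := by
  unfold hg; split_ifs <;> norm_num

theorem hb_of_lt (H m n : ℕ) (hn : 1 ≤ n) (h : cw H n < m) : hb H m n = true := by
  obtain ⟨k, rfl⟩ := Nat.exists_eq_add_of_le hn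
  rw [add_comm] at h ⊢
  rw [hb, if_pos h]

theorem hb_of_gt (H m n : ℕ) (hn : 1 ≤ n) (h : m < cw H n) : hb H m n = false := by
  obtain ⟨k, rfl⟩ := Nat.exists_eq_add_of_le hn
  rw [add_comm] at h ⊢
  rw [hb, if_neg (by omega), if_pos h]

theorem hb_of_eq (H m n : ℕ) (h : cw H (n + 1) = m) : hb H m (n + 1) = hb H m n := by
  rw [hb, if_neg (by omega), if_neg (by omega)]

/-- One step of the window. -/
theorem cw_step (H n : ℕ) :
    cw H (n + 1) + (if (n + 1).Prime then 1 else 0) =
      cw H n + (if (n + 1 + H).Prime then 1 else 0) := by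
  have h1 : ∀ k, cw H k = ∑ h ∈ range H, if (k + 1 + h).Prime then 1 else 0 := by
    intro k
    unfold cw
    rw [card_filter]
    have : Icc 1 H = (range H).image (fun i => i + 1) := by
      ext a
      simp only [mem_Icc, mem_image, mem_range]
      constructor
      · rintro ⟨h1, h2⟩
        exact ⟨a - 1, by omega, by omega⟩
      · rintro ⟨b, hb, rfl⟩
        omega
    rw [this, sum_image (by intro a _ b _ hab; simpa using hab)]
    apply sum_congr rfl
    intro i _
    rw [show k + (i + 1) = k + 1 + i by ring]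
  rw [h1, h1]
  have h2 := sum_range_succ (fun h => if (n + 1 + h).Prime then 1 else 0) H
  have h3 := sum_range_succ' (fun h => if (n + 1 + h).Prime then 1 else 0) H
  have h4 : ∑ h ∈ range H, (if (n + 1 + 1 + h).Prime then 1 else 0) =
      ∑ h ∈ range H, (if (n + 1 + (h + 1)).Prime then 1 else 0) := by
    apply sum_congr rfl
    intro i _
    rw [show n + 1 + 1 + i = n + 1 + (i + 1) by ring]
  rw [h4]
  simp only [add_zero] at h3
  rw [← h3, ← h2]

/-- A switch from `true` to `false`: the value is `m` before, `m + 1` after, and `n + 1 + H` is a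
prime. -/
theorem hb_switch (H m n : ℕ) (hn : 1 ≤ n) (h1 : hb H m n = true) (h2 : hb H m (n + 1) = false) :
    cw H n = m ∧ (n + 1 + H).Prime := by
  have e1 : cw H n ≤ m := by
    by_contra hc
    have := hb_of_gt H m n hn (by omega)
    rw [h1] at this
    exact absurd this (by decide)
  have e2 : m < cw H (n + 1) := by
    by_contra hc
    rcases lt_or_eq_of_le (not_lt.mp hc) with h | h
    · have := hb_of_lt H m (n + 1) (by omega) h
      rw [h2] at this
      exact absurd this (by decide)
    · have := hb_of_eq H m n h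
      rw [h1, h2] at this
      exact absurd this (by decide)
  have e3 := cw_step H n
  by_cases hp : (n + 1 + H).Prime
  · rw [if_pos hp] at e3
    exact ⟨by omega, hp⟩
  · rw [if_neg hp] at e3
    omega

/-- Going back from a point with value `m` and `hb = true` through a range without entering primes,
the value stays `m`. -/
theorem cw_back (H m n : ℕ) (h1 : hb H m n = true) (h2 : cw H n = m) (G : ℕ) (hG : G < n)
    (hp : ∀ q, n + 1 + H ≤ q + G → q < n + 1 + H → ¬ q.Prime) :
    ∀ j, j ≤ G → cw H (n - j) = m ∧ hb H m (n - j) = true := by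
  intro j
  induction j with
  | zero => intro _; exact ⟨h2, h1⟩
  | succ j ih =>
    intro hj
    obtain ⟨e1, e2⟩ := ih (by omega)
    obtain ⟨u, hu⟩ : ∃ u, n - j = u + 1 := ⟨n - j - 1, by omega⟩
    have hu2 : n - (j + 1) = u := by omega
    rw [hu] at e1 e2
    rw [hu2]
    have e3 := cw_step H u
    rw [if_neg (hp (u + 1 + H) (by omega) (by omega)), add_zero] at e3
    have e4 : hb H m u = true := by
      rw [← e2, hb_of_eq H m u e1]
    refine ⟨?_, e4⟩
    have e5 : cw H u ≤ m := by
      by_contra hc
      have := hb_of_gt H m u (by omega) (by omega)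
      rw [e4] at this
      exact absurd this (by decide)
    have e6 : m ≤ cw H u := by
      split_ifs at e3 <;> omega
    omega

/-- The number of switches of `hb`. -/
theorem switches_le (H m G N0 N2 : ℕ) (hG : 1 ≤ G) (hN : G < N0) :
    G * ((Ico N0 N2).filter (fun n => hb H m n = true ∧ hb H m (n + 1) = false)).card ≤
      ((range N2).filter (fun n => cw H n = m)).card +
      G * ((range (N2 + H + 1)).filter
        (fun q => q.Prime ∧ ∃ d ∈ Icc 1 G, d ≤ q ∧ (q - d).Prime)).card := by
  classical
  set D := (Ico N0 N2).filter (fun n => hb H m n = true ∧ hb H m (n + 1) = false) with hD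
  set A := D.filter (fun n => ∃ d ∈ Icc 1 G, d ≤ n + 1 + H ∧ (n + 1 + H - d).Prime) with hA
  set B := D.filter (fun n => ¬ ∃ d ∈ Icc 1 G, d ≤ n + 1 + H ∧ (n + 1 + H - d).Prime) with hB
  have hcard : D.card = A.card + B.card := by
    rw [hA, hB, card_filter_add_card_filter_not]
  have hAle : A.card ≤ ((range (N2 + H + 1)).filter
        (fun q => q.Prime ∧ ∃ d ∈ Icc 1 G, d ≤ q ∧ (q - d).Prime)).card := by
    apply card_le_card_of_injOn (fun n => n + 1 + H)
    · intro n hn
      rw [hA, coe_filter] at hn
      obtain ⟨hn1, hn2⟩ := hn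
      rw [hD, mem_filter, mem_Ico] at hn1
      rw [coe_filter]
      refine ⟨?_, (hb_switch H m n (by omega) hn1.2.1 hn1.2.2).2, hn2⟩
      rw [mem_range]
      show n + 1 + H < N2 + H + 1
      omega
    · intro a _ b _ hab
      simp only at hab
      omega
  have hBle : G * B.card ≤ ((range N2).filter (fun n => cw H n = m)).card := by
    have h1 : ((B ×ˢ range G).image (fun p => p.1 - p.2)).card = B.card * G := by
      rw [card_image_of_injOn, card_product, card_range]
      rintro ⟨n, i⟩ hn ⟨n', i'⟩ hn' hab
      simp only [coe_product, Set.mem_prod, mem_coe, mem_range] at hn hn' hab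
      obtain ⟨hn1, hi⟩ := hn
      obtain ⟨hn2, hi'⟩ := hn'
      rw [hB, mem_filter, hD, mem_filter, mem_Ico] at hn1 hn2
      have key : ∀ a b : ℕ, N0 ≤ a → N0 ≤ b → (hb H m a = true ∧ hb H m (a + 1) = false) →
          (¬ ∃ d ∈ Icc 1 G, d ≤ b + 1 + H ∧ (b + 1 + H - d).Prime) → a < b → a + G < b := by
        intro a b ha hb1 hsw hno hab'
        by_contra hc
        apply hno
        have hpr := (hb_switch H m a (by omega) hsw.1 hsw.2).2
        refine ⟨b - a, ?_, by omega, ?_⟩
        · rw [mem_Icc]; omega
        · rw [show b + 1 + H - (b - a) = a + 1 + H by omega]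
          exact hpr
      rcases lt_trichotomy n n' with h | h | h
      · have := key n n' hn1.1.1.1 hn2.1.1.1 hn1.1.2 hn2.2 h
        omega
      · subst h
        have : i = i' := by omega
        rw [this]
      · have := key n' n hn2.1.1.1 hn1.1.1.1 hn2.1.2 hn1.2 h
        omega
    rw [mul_comm, ← h1]
    apply card_le_card
    intro u hu
    rw [mem_image] at hu
    obtain ⟨⟨n, i⟩, hp, rfl⟩ := hu
    rw [mem_product, mem_range] at hp
    obtain ⟨hn, hi⟩ := hp
    simp only at hn hi ⊢
    rw [hB, mem_filter, hD, mem_filter, mem_Ico] at hn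
    obtain ⟨⟨⟨hn1, hn2⟩, hsw1, hsw2⟩, hno⟩ := hn
    rw [mem_filter, mem_range]
    refine ⟨by omega, ?_⟩
    refine (cw_back H m n hsw1 (hb_switch H m n (by omega) hsw1 hsw2).1 G (by omega) ?_ i
      hi.le).1
    intro q hq1 hq2 hqp
    apply hno
    refine ⟨n + 1 + H - q, ?_, by omega, ?_⟩
    · rw [mem_Icc]; omega
    · rw [show n + 1 + H - (n + 1 + H - q) = q by omega]
      exact hqp
  rw [hcard, mul_add]
  have := Nat.mul_le_mul_left G hAle
  omega

/-- The variation of the indicator. -/
theorem variation_le (H m N0 N2 : ℕ) :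
    ∑ n ∈ Ico N0 N2, |hg H m (n + 1) - hg H m n| ≤
      2 * (((Ico N0 N2).filter
        (fun n => hb H m n = true ∧ hb H m (n + 1) = false)).card : ℝ) + 1 := by
  classical
  rcases le_or_gt N2 N0 with h | h
  · rw [Ico_eq_empty (by omega)]
    simp
  have e1 : ∀ n, |hg H m (n + 1) - hg H m n| =
      (hg H m (n + 1) - hg H m n) +
      2 * (if hb H m n = true ∧ hb H m (n + 1) = false then (1 : ℝ) else 0) := by
    intro n
    unfold hg
    cases hb H m n <;> cases hb H m (n + 1) <;> norm_num
  rw [sum_congr rfl (fun n _ => e1 n), sum_add_distrib, ← mul_sum, sum_boole]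
  have e2 : ∑ n ∈ Ico N0 N2, (hg H m (n + 1) - hg H m n) = hg H m N2 - hg H m N0 :=
    sum_Ico_sub _ h.le
  rw [e2]
  have e3 := hg_le_one H m N2
  have e4 := hg_nonneg H m N0
  linarith

end Pool.Agent.Lib.H92P
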