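import Pool.Agent.Lib.H15P.FIN1
import Pool.Agent.Lib.H92P.X0
import Pool.Agent.Lib.H92P.X2
import Pool.Agent.Lib.H92P.X3

/-!
# H92P, X4: windows with exactly `m` primes
-/

open Finset

namespace Pool.Agent.Lib.H92P

open Pool.Agent.Lib.H15P

/-- The case `m = 0`. -/
theorem exact_zero (lam : ℝ) (hl : 0 < lam) : ∃ c : ℝ, 0 < c ∧ ∃ x0 : ℝ, ∀ x : ℝ, x0 ≤ x →
    c * x ≤ (((Icc 1 ⌊x⌋₊).filter (fun n => cw ⌊lam * Real.log x⌋₊ n = 0)).card : ℝ) := by
  obtain ⟨c, hc, x0, h0⟩ := rough_windows lam (1 / 2) hl (by norm_num)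
  refine ⟨c / 2, by positivity, max x0 (max 1 ((2 / c) ^ 2)), fun x hx => ?_⟩
  have hxx0 : x0 ≤ x := (le_max_left _ _).trans hx
  have hx1 : 1 ≤ x := ((le_max_left _ _).trans (le_max_right _ _)).trans hx
  have hx2 : (2 / c) ^ 2 ≤ x := ((le_max_right _ _).trans (le_max_right _ _)).trans hx
  set H := ⌊lam * Real.log x⌋₊ with hH
  have h6 : c * x ≤ (((Icc 1 ⌊x⌋₊).filter (fun n => cw H n = 0)).card : ℝ) +
      x ^ (1 / 2 : ℝ) := by
    refine (h0 x hxx0).trans ?_
    refine le_trans (Nat.cast_le.mpr (card_le_card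
      (t := ((Icc 1 ⌊x⌋₊).filter (fun n => cw H n = 0)) ∪ Icc 1 ⌊x ^ (1 / 2 : ℝ)⌋₊) ?_)) ?_
    · intro n hn
      rw [mem_filter] at hn
      rw [mem_union, mem_filter]
      by_cases h3 : (n : ℝ) ≤ x ^ (1 / 2 : ℝ)
      · right
        rw [mem_Icc]
        exact ⟨(mem_Icc.mp hn.1).1, Nat.le_floor h3⟩
      · left
        refine ⟨hn.1, ?_⟩
        unfold cw
        rw [card_eq_zero, filter_eq_empty_iff]
        intro h hh hp
        have h4 := hn.2 h hh
        rw [hp.minFac_eq] at h4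
        push_cast at h4
        have h5 : (0 : ℝ) ≤ h := Nat.cast_nonneg _
        exact h3 (by linarith)
    · have h4 := card_union_le ((Icc 1 ⌊x⌋₊).filter (fun n => cw H n = 0))
        (Icc 1 ⌊x ^ (1 / 2 : ℝ)⌋₊)
      rw [Nat.card_Icc, Nat.add_sub_cancel] at h4
      have h5 : ((⌊x ^ (1 / 2 : ℝ)⌋₊ : ℕ) : ℝ) ≤ x ^ (1 / 2 : ℝ) := Nat.floor_le (by positivity)
      have h6 : (((((Icc 1 ⌊x⌋₊).filter (fun n => cw H n = 0)) ∪
          Icc 1 ⌊x ^ (1 / 2 : ℝ)⌋₊).card : ℕ) : ℝ) ≤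
          (((Icc 1 ⌊x⌋₊).filter (fun n => cw H n = 0)).card : ℝ) +
          ((⌊x ^ (1 / 2 : ℝ)⌋₊ : ℕ) : ℝ) := by
        exact_mod_cast h4
      linarith
  have h7 : x ^ (1 / 2 : ℝ) ≤ c / 2 * x := by
    rw [← Real.sqrt_eq_rpow]
    have e1 : 2 / c ≤ Real.sqrt x := by
      apply Real.le_sqrt_of_sq_le
      exact hx2
    have e2 : Real.sqrt x * Real.sqrt x = x := Real.mul_self_sqrt (by linarith)
    have e3 : 0 ≤ Real.sqrt x := Real.sqrt_nonneg x
    calc Real.sqrt x = c / 2 * ((2 / c) * Real.sqrt x) := by field_simp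
      _ ≤ c / 2 * (Real.sqrt x * Real.sqrt x) := by gcongr
      _ = c / 2 * x := by rw [e2]
  linarith

/-- **Exact counts.** For every integer `0 ≤ m < lam` a positive proportion of the `n ≤ x` is such
that `(n, n + lam log x]` contains exactly `m` primes. -/
theorem exact_counts (m : ℕ) (lam : ℝ) (hm : (m : ℝ) < lam) :
    ∃ c : ℝ, 0 < c ∧ ∃ x0 : ℝ, ∀ x : ℝ, x0 ≤ x →
      c * x ≤ (((Icc 1 ⌊x⌋₊).filter (fun n => cw ⌊lam * Real.log x⌋₊ n = m)).card : ℝ) := by
  classical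
  have hl : 0 < lam := lt_of_le_of_lt (Nat.cast_nonneg _) hm
  rcases Nat.eq_zero_or_pos m with hm0 | hmpos
  · subst hm0
    exact exact_zero lam hl
  obtain ⟨c0, hc0, hc01, xw, hW⟩ := many_windows m lam hm
  obtain ⟨c1, hc1, xv, hV⟩ := core_variation lam c0 hl hc0 hc01
  -- constants: `K` for the short gaps, `ε` for their length
  set K : ℝ := 15 * 10 ^ 11 * 16 with hK
  have hKpos : 0 < K := by rw [hK]; norm_num
  set ε : ℝ := c1 / (8 * K) with hε
  have hεpos : 0 < ε := by positivity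
  refine ⟨c1 * ε / 32, by positivity, ?_⟩
  have E1 : ∀ᶠ x : ℝ in Filter.atTop, 14000 + 2 / ε + lam ≤ Real.log x :=
    Real.tendsto_log_atTop.eventually_ge_atTop _
  have E2 : ∀ᶠ x : ℝ in Filter.atTop, (lam + ε + 8 / c1 + 4) * Real.log x ≤ x ^ (1 / 2 : ℝ) := by
    have := (isLittleO_log_rpow_atTop (r := 1 / 2) (by norm_num)).bound
      (c := 1 / (lam + ε + 8 / c1 + 4)) (by positivity)
    filter_upwards [this, Filter.eventually_ge_atTop 1] with x hx hx1
    rw [Real.norm_of_nonneg (Real.log_nonneg hx1),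
      Real.norm_of_nonneg (by positivity)] at hx
    calc (lam + ε + 8 / c1 + 4) * Real.log x ≤
        (lam + ε + 8 / c1 + 4) * (1 / (lam + ε + 8 / c1 + 4) * x ^ (1 / 2 : ℝ)) := by gcongr
      _ = x ^ (1 / 2 : ℝ) := by field_simp
  have E3 : ∀ᶠ x : ℝ in Filter.atTop, x ^ (1 / 2 : ℝ) ≤ c1 * ε / 32 * x := by
    have := (tendsto_rpow_atTop (show (0 : ℝ) < 1 / 2 by norm_num)).eventually_ge_atTop
      (32 / (c1 * ε))
    filter_upwards [this, Filter.eventually_ge_atTop 1] with x hx hx1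
    have e1 : x ^ (1 / 2 : ℝ) * x ^ (1 / 2 : ℝ) = x := by
      rw [← Real.rpow_add (by linarith)]
      norm_num
    have e2 : 0 ≤ x ^ (1 / 2 : ℝ) := by positivity
    calc x ^ (1 / 2 : ℝ) = c1 * ε / 32 * ((32 / (c1 * ε)) * x ^ (1 / 2 : ℝ)) := by
          field_simp
      _ ≤ c1 * ε / 32 * (x ^ (1 / 2 : ℝ) * x ^ (1 / 2 : ℝ)) := by gcongr
      _ = c1 * ε / 32 * x := by rw [e1]
  obtain ⟨x1, hx1⟩ := Filter.eventually_atTop.mp (E1.and (E2.and E3))
  refine ⟨max (max xw xv) (max x1 100), fun x hx => ?_⟩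
  have hxw : xw ≤ x := ((le_max_left _ _).trans (le_max_left _ _)).trans hx
  have hxv : xv ≤ x := ((le_max_right _ _).trans (le_max_left _ _)).trans hx
  have hxx1 : x1 ≤ x := ((le_max_left _ _).trans (le_max_right _ _)).trans hx
  have hx100 : (100 : ℝ) ≤ x := ((le_max_right _ _).trans (le_max_right _ _)).trans hx
  obtain ⟨h1, h2, h3⟩ := hx1 x hxx1
  obtain ⟨N0, N1, U, hN0a, hN0b, hN1a, hX, hcore⟩ := hV x hxv
  set L := Real.log x with hLdef
  set H := ⌊lam * L⌋₊ with hHdef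
  have hxpos : 0 < x := by linarith
  have h2ε : 0 < 2 / ε := by positivity
  have hL0 : 14000 ≤ L := by linarith
  have hLpos : 0 < L := by linarith
  have hsqpos : 0 < x ^ (1 / 2 : ℝ) := by positivity
  set G := ⌊ε * L⌋₊ with hGdef
  have hεL : 2 ≤ ε * L := by
    have e1 : 2 / ε ≤ L := by linarith
    rw [div_le_iff₀ hεpos] at e1
    linarith
  have hGle : (G : ℝ) ≤ ε * L := Nat.floor_le (by positivity)
  have hGge : ε * L / 2 ≤ G := by
    have : ε * L < (G : ℝ) + 1 := Nat.lt_floor_add_one _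
    linarith
  have hG1 : 1 ≤ G := Nat.le_floor (by push_cast; linarith)
  have hGpos : (0 : ℝ) < G := by exact_mod_cast hG1
  have hHle : (H : ℝ) ≤ lam * L := Nat.floor_le (by positivity)
  have hGN0 : G < N0 := by
    have e1 : (G : ℝ) < N0 := by
      have : 0 < (lam + 8 / c1 + 4) * L := by positivity
      have e2 : (lam + ε + 8 / c1 + 4) * L = (lam + 8 / c1 + 4) * L + ε * L := by ring
      linarith
    exact_mod_cast e1
  -- the mean value of `hg`
  set g := hg H m with hgdef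
  have hmean : ∑ n ∈ Ico N0 N1, g n ≤ (1 - c0) * ((N1 : ℝ) - N0) := by
    have e1 : ∀ n ∈ Ico N0 N1, g n ≤ 1 - (if m + 1 ≤ cw H n then (1 : ℝ) else 0) := by
      intro n hn
      rw [mem_Ico] at hn
      split_ifs with h4
      · rw [hgdef]
        unfold hg
        rw [hb_of_gt H m n (by omega) (by omega)]
        norm_num
      · rw [sub_zero]
        exact hg_le_one H m n
    refine (sum_le_sum e1).trans ?_
    rw [sum_sub_distrib, sum_const, Nat.card_Ico, nsmul_eq_mul, mul_one, sum_boole]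
    have hN1x : (N1 : ℝ) ≤ x := by
      have : ((N1 + H + U : ℕ) : ℝ) = N1 + H + U := by push_cast; ring
      rw [this] at hX
      have a1 : (0 : ℝ) ≤ H := Nat.cast_nonneg _
      have a2 : (0 : ℝ) ≤ U := Nat.cast_nonneg _
      linarith
    have e2 := hW x hxw N0 N1 hN0b hN1a hN1x
    have h01 : N0 ≤ N1 := by
      have : (N0 : ℝ) ≤ N1 := by linarith [(fin2_sqrt x hx100).1]
      exact_mod_cast this
    rw [Nat.cast_sub h01]
    have e4 : c0 * ((N1 : ℝ) - N0) ≤ c0 * x := by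
      apply mul_le_mul_of_nonneg_left _ hc0.le
      have : (0 : ℝ) ≤ N0 := Nat.cast_nonneg _
      linarith
    linarith
  have hvar := hcore g (hg_nonneg H m) (hg_le_one H m) (by
    intro n hn hv
    have e1 : cw H n = 0 := by
      unfold cw
      rw [card_eq_zero, filter_eq_empty_iff]
      intro h hh
      exact hv h hh
    rw [hgdef]
    unfold hg
    rw [hb_of_lt H m n hn (by omega), if_pos rfl]) hmean
  set N2 := N1 + H + U with hN2
  have hv1 := variation_le H m N0 N2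
  have hv2 := switches_le H m G N0 N2 hG1 hGN0
  set D : ℕ := ((Ico N0 N2).filter (fun n => hb H m n = true ∧ hb H m (n + 1) = false)).card
    with hD
  set S : ℕ := ((range (N2 + H + 1)).filter
    (fun q => q.Prime ∧ ∃ d ∈ Icc 1 G, d ≤ q ∧ (q - d).Prime)).card with hS
  set E : ℕ := ((range N2).filter (fun n => cw H n = m)).card with hE
  have hv3 : (G : ℝ) * D ≤ E + G * S := by exact_mod_cast hv2
  have hxsq : x ^ (1 / 2 : ℝ) ≤ x / 10 := (fin2_sqrt x hx100).1
  have hHx : (H : ℝ) + 1 ≤ x := by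
    have e1 : lam * L ≤ x ^ (1 / 2 : ℝ) := by
      have : 0 < (ε + 8 / c1 + 4) * L := by positivity
      have e2 : (lam + ε + 8 / c1 + 4) * L = (ε + 8 / c1 + 4) * L + lam * L := by ring
      linarith
    linarith
  -- short gaps
  have hSle : (S : ℝ) ≤ c1 / 16 * (x / L) := by
    have e0 : ((N2 + H + 1 : ℕ) : ℝ) ≤ 2 * x := by
      have e1 : ((N2 + H + 1 : ℕ) : ℝ) = (N2 : ℝ) + H + 1 := by push_cast; ring
      rw [e1]
      linarith
    have e1 : x / 2 ≤ ((N2 + H + 1 : ℕ) : ℝ) := by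
      have e2 : (N1 : ℝ) ≤ ((N2 + H + 1 : ℕ) : ℝ) := by
        exact_mod_cast (by omega : N1 ≤ N2 + H + 1)
      linarith
    have e2 : L / 2 ≤ Real.log ((N2 + H + 1 : ℕ) : ℝ) := by
      have h1 : Real.log (x / 2) ≤ Real.log ((N2 + H + 1 : ℕ) : ℝ) :=
        Real.log_le_log (by positivity) e1
      rw [Real.log_div (by positivity) (by norm_num)] at h1
      have h2 := Real.log_two_lt_d9
      linarith
    have e3 := short_gaps G (N2 + H + 1) (by linarith)
    refine e3.trans ?_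
    have e4 : ((N2 + H + 1 : ℕ) : ℝ) / (Real.log ((N2 + H + 1 : ℕ) : ℝ)) ^ 2 ≤
        8 * (x / L ^ 2) := by
      calc ((N2 + H + 1 : ℕ) : ℝ) / (Real.log ((N2 + H + 1 : ℕ) : ℝ)) ^ 2 ≤
          (2 * x) / (L / 2) ^ 2 :=
            div_le_div₀ (by positivity) e0 (by positivity)
              (pow_le_pow_left₀ (by positivity) e2 2)
        _ = _ := by field_simp; ring
    calc 15 * 10 ^ 11 * ((G : ℝ) * (((N2 + H + 1 : ℕ) : ℝ) /
          (Real.log ((N2 + H + 1 : ℕ) : ℝ)) ^ 2)) ≤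
        15 * 10 ^ 11 * ((ε * L) * (8 * (x / L ^ 2))) := by gcongr
      _ = K / 2 * ε * (x / L) := by
        rw [hK]
        field_simp
        ring
      _ = c1 / 16 * (x / L) := by
        rw [hε]
        field_simp
        ring
  have hxL : 8 ≤ c1 * (x / L) := by
    have e1 : 8 / c1 * L ≤ x := by
      have : 0 < (lam + ε + 4) * L := by positivity
      have e2 : (lam + ε + 8 / c1 + 4) * L = (lam + ε + 4) * L + 8 / c1 * L := by ring
      linarith
    have e2 : 8 / c1 ≤ x / L := by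
      rw [le_div_iff₀ hLpos]; exact e1
    calc (8 : ℝ) = c1 * (8 / c1) := by field_simp
      _ ≤ c1 * (x / L) := by gcongr
  have hDge : c1 / 4 * (x / L) ≤ D := by
    have e1 : c1 * (x / L) ≤ 2 * (D : ℝ) + 1 := hvar.trans hv1
    linarith
  have hEge : c1 * ε / 16 * x ≤ E := by
    have e1 : (G : ℝ) * (D - S) ≤ E := by linarith
    have e2 : c1 / 8 * (x / L) ≤ (D : ℝ) - S := by
      have : 0 < c1 * (x / L) := by positivity
      linarith
    calc c1 * ε / 16 * x = (ε * L / 2) * (c1 / 8 * (x / L)) := by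
          field_simp
          ring
      _ ≤ (G : ℝ) * (D - S) := by gcongr
      _ ≤ E := e1
  -- from `range N2` to `[1, x]`
  have hEle : E ≤ ((Icc 1 ⌊x⌋₊).filter (fun n => cw H n = m)).card + 1 := by
    have e1 : (range N2).filter (fun n => cw H n = m) ⊆
        ((Icc 1 ⌊x⌋₊).filter (fun n => cw H n = m)) ∪ {0} := by
      intro n hn
      rw [mem_filter, mem_range] at hn
      rw [mem_union, mem_filter, mem_Icc, mem_singleton]
      rcases Nat.eq_zero_or_pos n with h | h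
      · exact Or.inr h
      · left
        refine ⟨⟨h, ?_⟩, hn.2⟩
        apply Nat.le_floor
        have : (n : ℝ) ≤ N2 := by exact_mod_cast hn.1.le
        linarith
    refine (card_le_card e1).trans ((card_union_le _ _).trans ?_)
    rw [card_singleton]
  have hEle' : (E : ℝ) ≤ (((Icc 1 ⌊x⌋₊).filter (fun n => cw H n = m)).card : ℝ) + 1 := by
    exact_mod_cast hEle
  have h1x : 1 ≤ x ^ (1 / 2 : ℝ) := Real.one_le_rpow (by linarith) (by norm_num)
  linarith

end Pool.Agent.Lib.H92P
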